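import Pool.Agent.H482R3.EA.Stm

set_option autoImplicit false
set_option linter.unusedSectionVars false

/-! Project EA, task RUN: the word of a syllable acts like the syllable (helper605). -/

namespace Pool.Agent.H605R.EA.RUN

open Pool.Agent.H482R3.EA

section

variable {V Wt : Type} [DecidableEq V] [DecidableEq Wt] (c : V ⊕ Wt → V ⊕ Wt → ℕ)
  (h : SysOK c) (A : Act (sysEA c h))

/-- the sign of a letter -/
def sg {G : Type} [Group G] (x : G) (b : Bool) : G := if b then x else x⁻¹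

lemma sg_eq {G : Type} [Group G] (x : G) (b : Bool) : sg x b = x ^ (if b then (1 : ℤ) else -1) := by
  cases b <;> simp [sg]

/-- action of the line `B_g` -/
noncomputable def aB (ω : A.Ω) (g : EA (cW c)) (y : EA (cV c)) : A.Ω :=
  A.act ω (Sum.inl g : LnEA c) y

/-- action of the line `(v, w, C)` -/
noncomputable def aL (ω : A.Ω) (v : V) (w : Wt) (hc : c (.inl v) (.inr w) ≠ 0)
    (C : EA (cW c) ⧸ Subgroup.zpowers (gen (cW c) w))
    (y : FreeGroup (Fin (c (.inl v) (.inr w)))) : A.Ω :=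
  A.act ω (Sum.inr ⟨(⟨(v, w), hc⟩ : LIdx c), C⟩ : LnEA c) y

lemma aB_one (ω : A.Ω) (g : EA (cW c)) : aB c h A ω g 1 = ω := A.act_one ω _

lemma aB_mul (ω : A.Ω) (g : EA (cW c)) (y y' : EA (cV c)) :
    aB c h A (aB c h A ω g y) g y' = aB c h A ω g (y * y') :=
  A.act_mul ω (Sum.inl g : LnEA c) y y'

lemma aL_one (ω : A.Ω) (v : V) (w : Wt) (hc : c (.inl v) (.inr w) ≠ 0) (C) :
    aL c h A ω v w hc C 1 = ω := A.act_one ω _

lemma aL_mul (ω : A.Ω) (v : V) (w : Wt) (hc : c (.inl v) (.inr w) ≠ 0) (C) (y y') :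
    aL c h A (aL c h A ω v w hc C y) v w hc C y' = aL c h A ω v w hc C (y * y') :=
  A.act_mul ω (Sum.inr ⟨(⟨(v, w), hc⟩ : LIdx c), C⟩ : LnEA c) y y'

lemma aB_eq_aL (ω : A.Ω) (v : V) (w : Wt) (hc : c (.inl v) (.inr w) ≠ 0) (g : EA (cW c))
    (b : Bool) :
    aB c h A ω g (sg (gen (cV c) v) b) =
      aL c h A ω v w hc (QuotientGroup.mk g)
        (sg (xx _ (exg c w ((QuotientGroup.mk g :
          EA (cW c) ⧸ Subgroup.zpowers (gen (cW c) w)).out⁻¹ * g))) b) := by
  have := A.act_pt ω (Sum.inl g : LnEA c)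
    (Sum.inr ⟨(⟨(v, w), hc⟩ : LIdx c), QuotientGroup.mk g⟩ : LnEA c)
    ((g, v) : PEA c) (if b then (1 : ℤ) else -1) rfl ⟨rfl, rfl⟩
  rw [sg_eq, sg_eq]
  exact this

lemma stepA_inl (ω : A.Ω) (g : EA (cW c)) (v : V) (b : Bool) :
    stepA c h A (ω, g) (.inl v, b) = (aB c h A ω g (sg (gen (cV c) v) b), g) := rfl

lemma stepA_inr (ω : A.Ω) (g : EA (cW c)) (w : Wt) (b : Bool) :
    stepA c h A (ω, g) (.inr w, b) = (ω, g * sg (gen (cW c) w) b) := rfl

lemma runA_nil (x : A.Ω × EA (cW c)) : runA c h A [] x = x := rfl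

lemma runA_cons (a : (V ⊕ Wt) × Bool) (u : W (V ⊕ Wt)) (x : A.Ω × EA (cW c)) :
    runA c h A (a :: u) x = runA c h A u (stepA c h A x a) := rfl

lemma runA_append (u u' : W (V ⊕ Wt)) (x : A.Ω × EA (cW c)) :
    runA c h A (u ++ u') x = runA c h A u' (runA c h A u x) := by
  simp [runA, List.foldl_append]

lemma ev_cons {S G : Type} [Group G] (f : S → G) (a : S × Bool) (u : W S) :
    ev f (a :: u) = sg (f a.1) a.2 * ev f u := by
  simp [ev, sg]

lemma ev_nil {S G : Type} [Group G] (f : S → G) : ev f ([] : W S) = 1 := rfl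

lemma run_iW (u : W Wt) (ω : A.Ω) (g : EA (cW c)) :
    runA c h A (iW u) (ω, g) = (ω, g * gEl c u) := by
  induction u generalizing g with
  | nil => simp [iW, runA_nil, gEl, ev_nil]
  | cons a u ih =>
    have : (iW (a :: u) : W (V ⊕ Wt)) = (.inr a.1, a.2) :: iW u := rfl
    rw [this, runA_cons, stepA_inr, ih, gEl, gEl, ev_cons, mul_assoc]

lemma run_iV (y : W V) (ω : A.Ω) (g : EA (cW c)) :
    runA c h A (iV y) (ω, g) = (aB c h A ω g (ev (gen (cV c)) y), g) := by
  induction y generalizing ω with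
  | nil => simp [iV, runA_nil, ev_nil, aB_one]
  | cons a u ih =>
    have : (iV (a :: u) : W (V ⊕ Wt)) = (.inl a.1, a.2) :: iV u := rfl
    rw [this, runA_cons, stepA_inl, ih, aB_mul, ev_cons]

lemma inv_iW (u : W Wt) : (inv (iW u) : W (V ⊕ Wt)) = iW (inv u) := by
  simp [inv, iW, List.map_reverse, List.map_map, Function.comp_def]

lemma run_invW (hV : S_EV) (u : W Wt) (ω : A.Ω) (g : EA (cW c)) :
    runA c h A (inv (iW u)) (ω, g) = (ω, g * (gEl c u)⁻¹) := by
  rw [inv_iW, run_iW, gEl, (hV Wt (EA (cW c)) _ (gen (cW c))).2.1]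
  rfl

lemma run_repV (n : ℕ) (v : V) (b : Bool) (ω : A.Ω) (g : EA (cW c)) :
    runA c h A (List.replicate n (.inl v, b)) (ω, g) =
      (aB c h A ω g (sg (gen (cV c) v) b ^ n), g) := by
  induction n generalizing ω with
  | zero => simp [runA_nil, aB_one]
  | succ n ih => rw [List.replicate_succ, runA_cons, stepA_inl, ih, aB_mul, pow_succ']

lemma run_repW (n : ℕ) (w : Wt) (b : Bool) (ω : A.Ω) (g : EA (cW c)) :
    runA c h A (List.replicate n (.inr w, b)) (ω, g) =
      (ω, g * sg (gen (cW c) w) b ^ n) := by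
  induction n generalizing g with
  | zero => simp [runA_nil]
  | succ n ih => rw [List.replicate_succ, runA_cons, stepA_inr, ih, pow_succ', mul_assoc]

lemma run_let (k : ℕ) (v : V) (w : Wt) (a : ℕ × Bool) (ω : A.Ω) (g : EA (cW c)) :
    runA c h A (letF k v w a) (ω, g) =
      (aB c h A ω (g * gen (cW c) w ^ (a.1 % k)) (sg (gen (cV c) v) a.2), g) := by
  rw [letF, runA_append, runA_append, run_repW, runA_cons, runA_nil, stepA_inl, run_repW]
  simp [sg, mul_assoc]

lemma aB_let (hG : S_EXG) (v : V) (w : Wt) (hc : c (.inl v) (.inr w) ≠ 0) (n : ℕ) (b : Bool)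
    (ω : A.Ω) (g : EA (cW c)) :
    aB c h A ω (g * gen (cW c) w ^ n) (sg (gen (cV c) v) b) =
      aL c h A ω v w hc (QuotientGroup.mk g)
        (sg (xx _ ((n : ℤ) + exg c w ((QuotientGroup.mk g :
          EA (cW c) ⧸ Subgroup.zpowers (gen (cW c) w)).out⁻¹ * g))) b) := by
  have h1 := aB_eq_aL c h A ω v w hc (g * gen (cW c) w ^ n) b
  have h2 : (QuotientGroup.mk (g * gen (cW c) w ^ n) :
      EA (cW c) ⧸ Subgroup.zpowers (gen (cW c) w)) = QuotientGroup.mk g := by
    rw [eq_comm, QuotientGroup.eq]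
    refine ⟨(n : ℤ), ?_⟩
    simp
  have h3 : exg c w ((QuotientGroup.mk g :
          EA (cW c) ⧸ Subgroup.zpowers (gen (cW c) w)).out⁻¹ * (g * gen (cW c) w ^ n)) =
      (n : ℤ) + exg c w ((QuotientGroup.mk g :
          EA (cW c) ⧸ Subgroup.zpowers (gen (cW c) w)).out⁻¹ * g) := by
    obtain ⟨-, e2, e3⟩ := hG V Wt inferInstance c w
    have := e3 w (n : ℤ)
    rw [if_pos rfl, zpow_natCast] at this
    rw [← mul_assoc, e2, this, add_comm]
  rw [h1, h2, h3]

lemma run_line (hG : S_EXG) (v : V) (w : Wt) (hc : c (.inl v) (.inr w) ≠ 0) (y : W ℕ)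
    (ω : A.Ω) (g : EA (cW c)) :
    runA c h A (y.flatMap (letF (c (.inl v) (.inr w)) v w)) (ω, g) =
      (aL c h A ω v w hc (QuotientGroup.mk g)
        (ev (fun r : ℕ => xx (c (.inl v) (.inr w)) (((r % c (.inl v) (.inr w) : ℕ) : ℤ) +
            exg c w (((QuotientGroup.mk g :
              EA (cW c) ⧸ Subgroup.zpowers (gen (cW c) w)).out)⁻¹ * g))) y), g) := by
  induction y generalizing ω with
  | nil => simp [runA_nil, ev_nil, aL_one]
  | cons a u ih =>
    rw [List.flatMap_cons, runA_append, run_let, aB_let c h A hG v w hc, ih, aL_mul, ev_cons]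

end

theorem t_RUN (hG : S_EXG) (hV : S_EV) : S_RUN := by
  intro V Wt _ _ c _ _ h A a ω ha
  rcases a with ⟨g, v, b, n⟩ | ⟨g, y⟩ | ⟨g, v, w, y⟩
  · rw [valS, runA_append, runA_append, run_iW, run_repV, run_invW c h A hV, one_mul,
      mul_inv_cancel]
    rfl
  · rw [valS, runA_append, runA_append, run_iW, run_iV, run_invW c h A hV, one_mul,
      mul_inv_cancel]
    rfl
  · have hc : c (.inl v) (.inr w) ≠ 0 := ha
    rw [valS, runA_append, runA_append, run_iW, run_line c h A hG v w hc, run_invW c h A hV,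
      one_mul, mul_inv_cancel]
    have e : lyO c (.inr (.inr (g, v, w, y))) =
        ⟨(Sum.inr ⟨(⟨(v, w), hc⟩ : LIdx c), QuotientGroup.mk (gEl c g)⟩ : LnEA c),
          (ev (fun r : ℕ => xx (c (.inl v) (.inr w)) (((r % c (.inl v) (.inr w) : ℕ) : ℤ) +
            exg c w (((QuotientGroup.mk (gEl c g) :
              EA (cW c) ⧸ Subgroup.zpowers (gen (cW c) w)).out)⁻¹ * gEl c g))) y :
            FreeGroup (Fin (c (.inl v) (.inr w))))⟩ := dif_pos hc
    rw [e]
    rfl

end Pool.Agent.H605R.EA.RUN
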